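import Pool.Agent.H1.ZU.Def

/-!
# Project ZU, module GEN: small integer polynomials which avoid a finite set
-/

open Polynomial

namespace Pool.H78.ZU

open Pool.H1.ZU

theorem comb {ι : Type} [DecidableEq ι] (l : ι → ℤ[X] →+ ℂ) (f : ι → ℤ[X]) (N : ℕ) (T : Finset ι)
    (hf : ∀ i ∈ T, l i (f i) ≠ 0) (hT : T.card ≤ N) :
    ∃ x : ι → ℕ, (∀ i, x i ≤ N) ∧ ∀ i ∈ T, l i (∑ j ∈ T, x j • f j) ≠ 0 := by
  induction T using Finset.induction_on with
  | empty => exact ⟨fun _ => 0, fun _ => Nat.zero_le _, by simp⟩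
  | insert s T hs ih =>
    rw [Finset.card_insert_of_notMem hs] at hT
    obtain ⟨x, hx, h⟩ := ih (fun i hi => hf i (Finset.mem_insert_of_mem hi)) (by omega)
    set q := ∑ j ∈ T, x j • f j with hq
    have key : ∃ y ∈ Finset.range (N + 1), ∀ i ∈ insert s T, l i (y • f s + q) ≠ 0 := by
      by_contra hcon
      push Not at hcon
      have hne : Nonempty ι := ⟨s⟩
      choose! g hg1 hg2 using hcon
      obtain ⟨a, ha, b, hb, hab, hgab⟩ := Finset.exists_ne_map_eq_of_card_lt_of_maps_to
        (s := Finset.range (N + 1)) (t := insert s T)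
        (by rw [Finset.card_insert_of_notMem hs, Finset.card_range]; omega) hg1
      have e1 := hg2 a ha
      have e2 := hg2 b hb
      rw [← hgab] at e2
      rw [map_add, map_nsmul, nsmul_eq_mul] at e1 e2
      have e3 : (a : ℂ) * l (g a) (f s) = (b : ℂ) * l (g a) (f s) := by
        linear_combination e1 - e2
      have hz : l (g a) (f s) = 0 := by
        by_contra hne
        have := mul_right_cancel₀ hne e3
        exact hab (by exact_mod_cast this)
      rw [hz, mul_zero, zero_add] at e1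
      rcases Finset.mem_insert.mp (hg1 a ha) with h1 | h1
      · rw [h1] at hz
        exact hf s (Finset.mem_insert_self _ _) hz
      · exact h _ h1 e1
    obtain ⟨y, hy, hy2⟩ := key
    refine ⟨Function.update x s y, ?_, ?_⟩
    · intro i
      by_cases hi : i = s
      · rw [hi, Function.update_self]
        exact Nat.lt_succ_iff.mp (Finset.mem_range.mp hy)
      · rw [Function.update_of_ne hi]
        exact hx i
    · intro i hi
      rw [Finset.sum_insert hs, Function.update_self]
      have : ∑ j ∈ T, Function.update x s y j • f j = q := by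
        refine Finset.sum_congr rfl fun j hj => ?_
        rw [Function.update_of_ne (by rintro rfl; exact hs hj)]
      rw [this]
      exact hy2 i hi

theorem path (n : ℕ) (B : ℂ → ℝ) (hB : ∀ z, ‖z‖ = 1 → 0 ≤ B z) (hC : Cov n B) (δ : ℝ)
    (hδ : 0 < δ) (l : ℤ[X] →+ ℂ) (v : ℤ[X]) (hv : v.natDegree ≤ n) (hl : l v ≠ 0) (M : ℝ)
    (hM : ∀ z : ℂ, ‖z‖ = 1 → ‖ev (ri v) z‖ ≤ M) :
    ∃ f : ℤ[X], f.natDegree ≤ n ∧ l f ≠ 0 ∧ ∀ z : ℂ, ‖z‖ = 1 → ‖ev (ri f) z‖ ≤ 2 * B z + δ := by
  obtain ⟨L, hL⟩ := exists_nat_gt (max (M / δ) 0)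
  have hL0 : (0 : ℝ) < L := lt_of_le_of_lt (le_max_right _ _) hL
  have hLn : 0 < L := by exact_mod_cast hL0
  have hLM : M / L ≤ δ := by
    have h1 : M / δ < L := lt_of_le_of_lt (le_max_left _ _) hL
    rw [div_lt_iff₀ hδ] at h1
    rw [div_le_iff₀ hL0]
    nlinarith
  set g : ℕ → ℝ[X] := fun j => C ((j : ℝ) / L) * ri v with hg
  have hgd : ∀ j, (g j).natDegree ≤ n := by
    intro j
    simp only [hg]
    exact (natDegree_C_mul_le _ _).trans ((ri_natDegree v).le.trans hv)
  choose F hF1 hF2 using fun j => hC (g j) (hgd j)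
  set F' : ℕ → ℤ[X] := fun j => if j = 0 then 0 else if j = L then v else F j with hF'
  have hd : ∀ j, (F' j).natDegree ≤ n := by
    intro j
    simp only [hF']
    split_ifs
    · simp
    · exact hv
    · exact hF1 j
  have he : ∀ j, ∀ z : ℂ, ‖z‖ = 1 → ‖ev (g j - ri (F' j)) z‖ ≤ B z := by
    intro j z hz
    simp only [hF']
    split_ifs with h0 h1
    · have : g j - ri 0 = 0 := by
        simp [hg, h0, ri]
      rw [this]
      simpa [ev] using hB z hz
    · have : g j - ri v = 0 := by
        simp only [hg, h1]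
        rw [div_self hL0.ne']
        simp
      rw [this]
      simpa [ev] using hB z hz
    · exact hF2 j z hz
  have hex : ∃ j, l (F' (j + 1)) ≠ l (F' j) := by
    by_contra hcon
    push Not at hcon
    have hall : ∀ j, l (F' j) = l (F' 0) := by
      intro j
      induction j with
      | zero => rfl
      | succ j ih => rw [hcon j, ih]
    have h1 := hall L
    have h2 : F' L = v := by
      simp [hF', hLn.ne']
    have h3 : F' 0 = 0 := by
      simp [hF']
    rw [h2, h3, map_zero] at h1
    exact hl h1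
  obtain ⟨j, hj⟩ := hex
  refine ⟨F' (j + 1) - F' j, ?_, ?_, ?_⟩
  · exact (natDegree_sub_le _ _).trans (max_le (hd _) (hd _))
  · rw [map_sub]
    exact sub_ne_zero.mpr hj
  · intro z hz
    have h1 : ev (ri (F' (j + 1) - F' j)) z = ev (g j - ri (F' j)) z
        - ev (g (j + 1) - ri (F' (j + 1))) z + ev (g (j + 1) - g j) z := by
      rw [ri_sub, ev_sub, ev_sub, ev_sub, ev_sub]
      ring
    have h2 : ev (g (j + 1) - g j) z = ((1 / L : ℝ) : ℂ) * ev (ri v) z := by
      have : g (j + 1) - g j = C (1 / (L : ℝ)) * ri v := by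
        simp only [hg]
        rw [← sub_mul, ← C_sub]
        congr 2
        push_cast
        ring
      rw [this, ev_mul]
      congr 1
      simp [ev]
    have h3 : ‖ev (g (j + 1) - g j) z‖ ≤ δ := by
      rw [h2, norm_mul, Complex.norm_real, Real.norm_of_nonneg (by positivity)]
      refine le_trans ?_ hLM
      rw [div_mul_eq_mul_div, one_mul]
      exact div_le_div_of_nonneg_right (hM z hz) hL0.le
    rw [h1]
    have h4 := norm_add_le (ev (g j - ri (F' j)) z - ev (g (j + 1) - ri (F' (j + 1))) z)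
      (ev (g (j + 1) - g j) z)
    have h5 := norm_sub_le (ev (g j - ri (F' j)) z) (ev (g (j + 1) - ri (F' (j + 1))) z)
    have h6 := he j z hz
    have h7 := he (j + 1) z hz
    linarith

theorem norm_t_le (z : ℂ) (hz : ‖z‖ = 1) : ‖z - z ^ 2‖ ≤ 2 := by
  have := norm_sub_le z (z ^ 2)
  rw [norm_pow, hz] at this
  norm_num at this
  exact this

theorem ev_nsmul (x : ℕ) (f : ℤ[X]) (z : ℂ) : ev (ri (x • f)) z = x * ev (ri f) z := by
  rw [nsmul_eq_mul, ri_mul, ev_mul]
  congr 1
  simp [ri, ev]

theorem ev_sum {ι : Type} (S : Finset ι) (f : ι → ℤ[X]) (z : ℂ) :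
    ev (ri (∑ i ∈ S, f i)) z = ∑ i ∈ S, ev (ri (f i)) z := by
  classical
  induction S using Finset.induction_on with
  | empty => simp [ri, ev]
  | insert s T hs ih => rw [Finset.sum_insert hs, Finset.sum_insert hs, ri_add, ev_add, ih]

/-- the functionals: coefficient `n`, and the values at the points -/
noncomputable def fn (n : ℕ) : Option ℂ → ℤ[X] →+ ℂ
  | none => (Int.castAddHom ℂ).comp (lcoeff ℤ n).toAddMonoidHom
  | some a => (aeval a : ℤ[X] →ₐ[ℤ] ℂ).toRingHom.toAddMonoidHom

theorem fn_none (n : ℕ) (q : ℤ[X]) : fn n none q = (q.coeff n : ℂ) := rfl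

theorem fn_some (n : ℕ) (a : ℂ) (q : ℤ[X]) : fn n (some a) q = aeval a q := rfl

theorem GEN : S_GEN := by
  classical
  intro n B hB hC δ hδ A
  have hone : ∀ i : Option ℂ, ∃ f : ℤ[X], f.natDegree ≤ n ∧ fn n i f ≠ 0 ∧
      ∀ z : ℂ, ‖z‖ = 1 → ‖ev (ri f) z‖ ≤ 2 * B z + δ := by
    intro i
    cases i with
    | none =>
      refine path n B hB hC δ hδ (fn n none) (X ^ n) (by simp) ?_ (2 ^ n) ?_
      · rw [fn_none]
        simp
      · intro z hz
        have : ev (ri (X ^ n)) z = (z - z ^ 2) ^ n := by simp [ev, ri]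
        rw [this, norm_pow]
        exact pow_le_pow_left₀ (norm_nonneg _) (norm_t_le z hz) n
    | some a =>
      refine path n B hB hC δ hδ (fn n (some a)) 1 (by simp) ?_ 1 ?_
      · rw [fn_some]
        simp
      · intro z _
        have : ev (ri 1) z = 1 := by simp [ev, ri]
        rw [this]
        simp
  choose f hf1 hf2 hf3 using hone
  set S : Finset (Option ℂ) := Finset.insertNone A with hS
  have hcard : S.card = A.card + 1 := by rw [hS, Finset.card_insertNone]
  obtain ⟨x, hx, h⟩ := comb (fn n) f (A.card + 1) S (fun i _ => hf2 i) hcard.le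
  set q : ℤ[X] := ∑ j ∈ S, x j • f j with hq
  have hdeg : q.natDegree ≤ n := by
    rw [hq]
    refine natDegree_sum_le_of_forall_le _ _ fun j _ => ?_
    exact (natDegree_smul_le _ _).trans (hf1 j)
  refine ⟨q, ?_, ?_, ?_⟩
  · refine natDegree_eq_of_le_of_coeff_ne_zero hdeg ?_
    have := h none (by rw [hS]; simp)
    rw [fn_none] at this
    exact_mod_cast this
  · intro a ha
    have := h (some a) (by rw [hS]; simpa using ha)
    rwa [fn_some] at this
  · intro z hz
    have hb : 0 ≤ 2 * B z + δ := by have := hB z hz; linarith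
    rw [hq, ev_sum]
    calc ‖∑ j ∈ S, ev (ri (x j • f j)) z‖ ≤ ∑ j ∈ S, ‖ev (ri (x j • f j)) z‖ := norm_sum_le _ _
      _ ≤ ∑ _j ∈ S, ((A.card + 1 : ℕ) : ℝ) * (2 * B z + δ) := by
          refine Finset.sum_le_sum fun j _ => ?_
          rw [ev_nsmul, norm_mul, Complex.norm_natCast]
          exact mul_le_mul (by exact_mod_cast hx j) (hf3 j z hz) (norm_nonneg _) (by positivity)
      _ = ((A.card : ℝ) + 1) * ((A.card : ℝ) + 1) * (2 * B z + δ) := by
          rw [Finset.sum_const, nsmul_eq_mul, hcard]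
          push_cast
          ring
      _ ≤ (A.card + 2 : ℝ) ^ 2 * (2 * B z + δ) := by
          apply mul_le_mul_of_nonneg_right _ hb
          nlinarith [Nat.cast_nonneg (α := ℝ) A.card]

end Pool.H78.ZU
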